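import Pool.Agent.J6H64.DP.Main
import Pool.Agent.J6H64.DP.Base
import Pool.Agent.J6H64.DP.Iso
import Pool.Agent.J6H64.DP.Comp
import Pool.Agent.J6H64.DP.Fac

/-!
# The second gamma-number of discrete pseudomanifolds

For every discrete `d`-pseudomanifold `M` with `f₀` vertices and `f₁` edges, `γ₁ = f₀ - 2 (d + 1)`,
`γ₂ = f₁ - (2 d - 1) f₀ + (d - 1) (2 d + 2)`; `q t = 0` for `t ≤ 3` and `q t = (t - 2) (t - 3)` for `t ≥ 3`:

(1) `3 γ₂ ≥ - (2 d - 1) γ₁`, that is `3 f₁ ≥ (4 d - 2) f₀ - 2 (d + 1) (d - 2)`;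
(2) let `c` be the number of the components of the complement of `M` (the number of join factors) and
`T = f₀ + c - 3 (d + 1)`. Then `T ≥ 0` and `2 γ₂ ≥ - q T`. So `γ₂ ≥ 0` if `f₀ + c ≤ 3 d + 6`; if `M` is not a join
this is `f₀ ≤ 3 d + 5` (known: `f₀ ≤ 2 d + 7`);
(3) for any cliques `F_C` in the join factors `C`, `2 γ₂ ≥ - ∑ (|C| - 3 |F_C| - 1) (|C| - 3 |F_C| - 2)`, the sum over
the join factors `C` which contain a clique with four vertices and have `|C| > 3 |F_C| + 2`. So `γ₂ ≥ 0` if every join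
factor has dimension at most two or contains a clique `F` and has at most `3 |F| + 2` vertices;
(4) for every vertex `v` of `M`, with `m` non-neighbours other than `v`, `2 γ₂ (M) ≥ 2 γ₂ (N (v)) - q (m - 2)`;
(5) if `d = 3` then `2 γ₂ (M) ≥ - q (m - 2)` for the number `m` of (4) of every vertex, so `γ₂ ≥ 0` if `m ≤ 5` for
some vertex.

The discrete `d`-pseudomanifolds are the flag normal pseudomanifolds `NP` of rank `d + 1` of the library, and the
bounds (1), (2) and (4) are those of `Pool.Agent.J6H30` (`Gal2`, `Gal3`), which were made for flag homology spheres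
(see `Results/MP_19e880_co`) but use the structure of a flag normal pseudomanifold only. For (3) and (5) one needs
`γ₂ ≥ 0` for closed surfaces (`Pool.Agent.J6H64.DP.Surf`). The comparison with induced equators other than the
neighbourhood of a vertex is in `Results/MP_c38f4a_co/InducedEquators.lean`.
-/

set_option autoImplicit false

namespace Pool.Agent.Results.MP_c38f4a_co.GammaTwoBounds

open Pool.Agent.W497.FS Pool.Agent.J6H30.Gal3 Pool.Agent.J6H64.DP

/-- `γ₁ = f₀ - 2 (d + 1)` -/
noncomputable def gammaOne (d : ℕ) (V : Type) : ℤ := (Nat.card V : ℤ) - 2 * (d + 1)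

/-- `γ₂ = f₁ - (2 d - 1) f₀ + (d - 1) (2 d + 2)` -/
noncomputable def gammaTwo (d : ℕ) {V : Type} (M : SimpleGraph V) : ℤ :=
  (Nat.card M.edgeSet : ℤ) - (2 * d - 1) * Nat.card V + (d - 1) * (2 * d + 2)

/-- the join factors of `M` (the vertex sets of the components of the complement of `M`): nonempty sets `C` of vertices
such that all vertices of `C` are adjacent to all vertices outside `C`, and `C` has no proper nonempty part all of whose
vertices are adjacent to all vertices in the rest of `C` -/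
def IsJoinFactor {V : Type} (M : SimpleGraph V) (C : Finset V) : Prop :=
  C.Nonempty ∧ (∀ c ∈ C, ∀ x, x ∉ C → M.Adj c x) ∧
    ∀ A ⊆ C, A.Nonempty → A ≠ C → ∃ a ∈ A, ∃ b ∈ C, b ∉ A ∧ ¬ M.Adj a b

open scoped Classical in
/-- the join factors of dimension at least three (those which contain a clique with four vertices) -/
noncomputable def bigFactors {V : Type} [Fintype V] (M : SimpleGraph V) : Finset (Finset V) :=
  Finset.univ.filter (fun C => IsJoinFactor M C ∧ ∃ G : Finset V, M.IsClique (G : Set V) ∧ G ⊆ C ∧ G.card = 4)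

/-- the defect `T = f₀ + c - 3 (d + 1)`, where `c` is the number of components of the complement of `M` -/
noncomputable def defect (d : ℕ) {V : Type} (M : SimpleGraph V) : ℤ :=
  (Nat.card V : ℤ) + Nat.card Mᶜ.ConnectedComponent - 3 * (d + 1)

/-- the number of non-neighbours of `v` other than `v` -/
noncomputable def far {V : Type} (M : SimpleGraph V) (v : V) : ℕ := Nat.card {x : V // x ≠ v ∧ ¬ M.Adj v x}

/-- `q t = 0` for `t ≤ 3` and `(t - 2) (t - 3)` for `t ≥ 3` -/
def q (t : ℤ) : ℤ := if t ≤ 3 then 0 else (t - 2) * (t - 3)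

theorem dg_induce {V : Type} [Fintype V] [DecidableEq V] (M : SimpleGraph V) (W : Finset V) :
    Pool.Agent.TH417.Gal.dg M W = 2 * Nat.card (M.induce (W : Set V)).edgeSet := by
  classical
  have h := (M.induce (W : Set V)).sum_degrees_eq_twice_card_edges
  rw [Nat.card_eq_fintype_card, ← SimpleGraph.edgeFinset_card]
  rw [← h]
  unfold Pool.Agent.TH417.Gal.dg
  rw [Finset.sum_subtype W (p := fun x => x ∈ (W : Set V)) (fun x => Iff.rfl)]
  refine Finset.sum_congr rfl fun v _ => ?_
  rw [← SimpleGraph.card_neighborFinset_eq_degree]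
  rw [← Finset.card_map (Function.Embedding.subtype _)]
  congr 1
  ext x
  rw [mem_lk, Finset.mem_map]
  constructor
  · rintro ⟨h1, h2⟩
    exact ⟨⟨x, h1⟩, by rw [SimpleGraph.mem_neighborFinset]; exact h2, rfl⟩
  · rintro ⟨y, h1, rfl⟩
    rw [SimpleGraph.mem_neighborFinset] at h1
    exact ⟨y.2, h1⟩

theorem G2_induce {V : Type} [Fintype V] [DecidableEq V] (M : SimpleGraph V) (W : Finset V) (d : ℕ) :
    2 * gammaTwo d (M.induce (W : Set V)) = G2 M ((d + 1 : ℕ) : ℤ) W := by
  rw [G2, dg_induce, gammaTwo]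
  have h1 : Nat.card ((W : Set V) : Type) = W.card := by
    rw [Nat.card_eq_fintype_card]
    simp
  rw [h1]
  push_cast
  ring

theorem G2_univ {V : Type} [Fintype V] [DecidableEq V] (M : SimpleGraph V) (d : ℕ) :
    2 * gammaTwo d M = G2 M ((d + 1 : ℕ) : ℤ) Finset.univ := by
  have h1 := G2_induce M Finset.univ d
  have h2 : gammaTwo d (M.induce ((Finset.univ : Finset V) : Set V)) = gammaTwo d M := by
    have e : M.induce ((Finset.univ : Finset V) : Set V) ≃g M :=
      (SimpleGraph.Iso.refl.trans (by rw [Finset.coe_univ])).trans (SimpleGraph.induceUnivIso M)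
    rw [gammaTwo, gammaTwo, Nat.card_congr e.toEquiv, Nat.card_congr e.mapEdgeSet]
  rw [← h1, h2]

theorem np_univ {d : ℕ} {V : Type} [Fintype V] [DecidableEq V] {M : SimpleGraph V} (hM : DiscretePM d V M) :
    NP M (d + 1) Finset.univ := by
  refine s_main s_iso s_base d V M Finset.univ (s_iso d V _ M _ ⟨?_⟩ hM)
  exact ((SimpleGraph.induceUnivIso M).symm.trans
    (SimpleGraph.Iso.refl.trans (by rw [Finset.coe_univ])))

theorem gammaTwo_surf {V : Type} [Fintype V] [DecidableEq V] {M : SimpleGraph V} {W : Finset V} (h : NP M 3 W) :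
    0 ≤ G2 M 3 W := by
  have h1 := G2_low (d := 2) (by norm_num) h
  exact_mod_cast h1

/-- **Lower bounds for the second gamma-number of a discrete pseudomanifold.** -/
theorem result (d : ℕ) (V : Type) [Fintype V] (M : SimpleGraph V) (hM : DiscretePM d V M) :
    -((2 * (d : ℤ) - 1) * gammaOne d V) ≤ 3 * gammaTwo d M ∧
    (0 ≤ defect d M ∧ -q (defect d M) ≤ 2 * gammaTwo d M) ∧
    (∀ F : Finset V → Finset V, (∀ C, IsJoinFactor M C → M.IsClique (F C : Set V) ∧ F C ⊆ C) →
      -((∑ C ∈ bigFactors M, (C.card - 3 * (F C).card - 1) * (C.card - 3 * (F C).card - 2) : ℕ) : ℤ) ≤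
        2 * gammaTwo d M) ∧
    (∀ e : ℕ, d = e + 1 → ∀ v : V,
      2 * gammaTwo e (M.induce (M.neighborSet v)) ≤ 2 * gammaTwo d M + q ((far M v : ℤ) - 2)) ∧
    (d = 3 → ∀ v : V, 0 ≤ 2 * gammaTwo d M + q ((far M v : ℤ) - 2)) := by
  classical
  have hNP := np_univ hM
  have hG : 2 * gammaTwo d M = G2 M ((d + 1 : ℕ) : ℤ) Finset.univ := G2_univ M d
  have hV : Nat.card V = (Finset.univ : Finset V).card := by
    rw [Nat.card_eq_fintype_card, Finset.card_univ]
  have hcomp : (comps M Finset.univ).card = Nat.card Mᶜ.ConnectedComponent := by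
    rw [s_comp V M]
    congr 1
    ext C
    rw [mem_comps, Finset.mem_filter]
    simp
  have hfac : ∀ C, C ∈ comps M Finset.univ ↔ IsJoinFactor M C := by
    intro C
    rw [mem_comps]
    constructor
    · rintro ⟨h2, h3, h4⟩
      exact ⟨h3.1, fun c hc x hx => h4 c hc x (Finset.mem_univ x) hx, h3.2⟩
    · rintro ⟨h2, h3, h4⟩
      exact ⟨Finset.subset_univ C, ⟨h2, h4⟩, fun c hc x _ hx => h3 c hc x hx⟩
  have hcl : ∀ G : Finset V, M.IsClique (G : Set V) ↔ ∀ x ∈ G, ∀ y ∈ G, x ≠ y → M.Adj x y := by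
    intro G
    exact ⟨fun h x hx y hy hxy => h hx hy hxy, fun h x hx y hy hxy => h x hx y hy hxy⟩
  have hfar : ∀ v, (nn M Finset.univ v).card = far M v := by
    intro v
    rw [far, Nat.card_eq_fintype_card, Fintype.card_subtype]
    congr 1
    ext x
    rw [mem_nn, Finset.mem_filter]
  have hset : ∀ v, ((lk M Finset.univ v : Finset V) : Set V) = M.neighborSet v := by
    intro v
    ext x
    rw [Finset.mem_coe, mem_lk, SimpleGraph.mem_neighborSet]
    simp
  refine ⟨?_, ?_, ?_, ?_, ?_⟩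
  · have h1 := Pool.Agent.J6H30.Gal2.edges _ (d + 1) M Finset.univ rfl hNP
    have h2 : (Pool.Agent.TH417.Gal.dg M Finset.univ : ℤ) = 2 * Nat.card M.edgeSet := by
      have h3 := hG
      rw [G2, gammaTwo, hV] at h3
      push_cast at h3
      linarith
    rw [gammaOne, gammaTwo, hV]
    push_cast at h1 ⊢
    rw [h2] at h1
    linarith
  · obtain ⟨h1, h2⟩ := G2_all hNP
    rw [hcomp] at h1 h2
    have h3 : (((Finset.univ : Finset V).card : ℤ) + (Nat.card Mᶜ.ConnectedComponent : ℤ) - 3 * ((d + 1 : ℕ) : ℤ)) =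
        defect d M := by
      rw [defect, hV]
      push_cast
      ring
    rw [h3] at h1 h2
    rw [← hG] at h2
    exact ⟨h1, h2⟩
  · intro F hF
    have h1 := Pool.Agent.J6H64.DP.G2_sum (fun C => (F C).card) hNP (fun C hC e hCe => by
      obtain ⟨h2, h3⟩ := hF C ((hfac C).1 hC)
      exact hCe.card_le (mem_cl.2 ⟨h3, (hcl _).1 h2⟩))
    rw [← hG] at h1
    have h2 : bigc M Finset.univ = bigFactors M := by
      ext C
      rw [bigc, bigFactors, Finset.mem_filter, Finset.mem_filter, hfac]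
      constructor
      · rintro ⟨h3, G, hG1, hG2⟩
        exact ⟨Finset.mem_univ C, h3, G, (hcl G).2 (mem_cl.1 hG1).2, (mem_cl.1 hG1).1, hG2⟩
      · rintro ⟨-, h3, G, hG1, hG2, hG3⟩
        exact ⟨h3, G, mem_cl.2 ⟨hG2, (hcl G).1 hG1⟩, hG3⟩
    rw [h2] at h1
    exact h1
  · rintro e rfl v
    have h1 := G2_vertex hNP (Finset.mem_univ v)
    rw [hfar v] at h1
    have h2 := G2_induce M (lk M Finset.univ v) e
    rw [hset v] at h2
    rw [hG, h2]
    push_cast at h1 ⊢
    have h3 : ((e : ℤ) + 1 + 1) = e + 2 := by ring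
    rw [h3]
    have h4 : q ((far M v : ℤ) - 2) = RR ((far M v : ℤ) - 2) := rfl
    rw [h4]
    linarith
  · rintro rfl v
    have h1 := G2_vertex hNP (Finset.mem_univ v)
    rw [hfar v] at h1
    have h7 := gammaTwo_surf (hNP.lk (Finset.mem_univ v))
    rw [hG]
    have h8 : (((3 + 1 : ℕ)) : ℤ) = ((2 : ℕ) : ℤ) + 2 := by norm_num
    have h9 : (((2 : ℕ) : ℤ) + 1) = 3 := by norm_num
    rw [h9] at h1
    rw [h8]
    have h10 : q ((far M v : ℤ) - 2) = RR ((far M v : ℤ) - 2) := rfl
    rw [h10]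
    linarith

end Pool.Agent.Results.MP_c38f4a_co.GammaTwoBounds
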