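import Pool.Agent.J6H30.Gal5.Fin

/-!
# The second gamma-number of discrete pseudomanifolds and induced equators

Let `M` be a discrete pseudomanifold of dimension `n = d + 2 ≥ 2`, and `E` an induced equator: a set of
vertices such that the graph induced on `E` is a discrete `(n-1)`-pseudomanifold and the other
vertices are the union of two nonempty sets `A`, `B`, the sides, without edges between them.  (For
example `E` can be the set of the neighbours of a vertex `v`, `A = {v}`.)  The cost of the side `A`,
computed with a connected subset `J` of `A`, is `(|J| - 4) (|J| - 5)` (`0` for `|J| ≤ 5`) plus two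
times the sum over the vertices `w` of `A` not in `J` of `max (0, 2 (n - 1) - e (w))`, where `e (w)` is
the number of the neighbours of `w` in `E`.

(1) `2 γ₂ (E) ≤ 2 γ₂ (M) + cost (A) + cost (B)`.  In particular `γ₂ (E) ≤ γ₂ (M)` if both sides have
at most five vertices.

(2) If the side `A` is replaced by one vertex then the graph `M'` obtained is again a discrete
`n`-pseudomanifold, and `2 γ₂ (M') ≤ 2 γ₂ (M) + cost (A)`.

(3) In a counterexample to `γ₂ ≥ 0` with the smallest number of vertices (for its dimension) each side
of each induced equator has exactly one vertex or at least six vertices.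

Idea of the proof.  The discrete pseudomanifolds are the flag normal pseudomanifolds `NP` of the
library.  For a set `J` of vertices let `Ψ (J)` be the number of the edges meeting `J` minus the number of
the vertices outside `J` adjacent to `J`.  Then `γ₂ (M) - γ₂ (E)` is the sum over the two sides `A` of
`Ψ (A) - (|A| - 1) (2 n - 1)`.  When a vertex `w` adjacent to `J` is added to `J`, then `Ψ` increases by at
least `2 n - 1`, by the bound for vertex cuts in the link of `w`, except if the neighbours of `w` in `J`
dominate the link of `w`; then `Ψ` increases by `1` plus the number of the neighbours of `w` outside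
`J`.  As `J` is connected and does not dominate `M`, the bound for vertex cuts in `M` gives an
upper bound for `Ψ (J)`, which shows that there is no loss for `|J| ≤ 5`, and bounds it in general.
-/

set_option autoImplicit false

namespace Pool.Agent.Results.MP_c38f4a_co.InducedEquators

open Pool.Agent.J6H64.DP Pool.Agent.J6H30.Gal5

/-- The second gamma-number of a discrete pseudomanifold of dimension `d + 2`, compared with an
induced equator (1) and with the graph obtained by replacing a side of the equator by a vertex (2),
and the sides of equators in smallest counterexamples (3). -/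
theorem result (d : ℕ) (V : Type) [Fintype V] [DecidableEq V] (M : SimpleGraph V)
    (hM : DiscretePM (d + 2) V M) :
    (∀ E A B : Finset V, IsEquator (d + 1) M E A B →
      ∀ J ⊆ A, (M.induce (J : Set V)).Connected → ∀ K ⊆ B, (M.induce (K : Set V)).Connected →
      2 * gammaTwo (d + 1) (M.induce (E : Set V)) ≤
        2 * gammaTwo (d + 2) M + (cost (d + 1) M E A J + cost (d + 1) M E B K : ℕ)) ∧
    (∀ E A B : Finset V, IsEquator (d + 1) M E A B → ∀ a ∈ A,
      DiscretePM (d + 2) _ (replaced M E B a) ∧
      ∀ J ⊆ A, (M.induce (J : Set V)).Connected →
        2 * gammaTwo (d + 2) (replaced M E B a) ≤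
          2 * gammaTwo (d + 2) M + (cost (d + 1) M E A J : ℕ)) ∧
    (gammaTwo (d + 2) M < 0 →
      (∀ (V' : Type) (M' : SimpleGraph V'), DiscretePM (d + 2) V' M' →
        Nat.card V' < Nat.card V → 0 ≤ gammaTwo (d + 2) M') →
      ∀ E A B : Finset V, IsEquator (d + 1) M E A B → A.card = 1 ∨ 6 ≤ A.card) := by
  have hne : ∀ J : Finset V, (M.induce (J : Set V)).Connected → J.Nonempty := by
    intro J hJ
    obtain ⟨x⟩ := hJ.nonempty
    exact ⟨x.1, x.2⟩
  exact ⟨fun E A B hE J hJ hJc K hK hKc => equator_le hM hE hJ (sconn_of_connected M J hJc)
      (hne J hJc) hK (sconn_of_connected M K hKc) (hne K hKc),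
    fun E A B hE a ha => ⟨replaced_pm hM hE ha, fun J hJ hJc =>
      replaced_le hM hE ha hJ (sconn_of_connected M J hJc) (hne J hJc)⟩,
    fun hneg hmin E A B hE => smallest hM hneg hmin hE⟩

end Pool.Agent.Results.MP_c38f4a_co.InducedEquators
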